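import Mathlib

/-!
# Core irreducible elements of right LCM monoids need not be closed under right LCMs

Let `σ` be the endomorphism of the free monoid on `s, t, y` with `σ(s) = σ(t) = s` and
`σ(y) = y`, and let `S = ℕ × {s, t, y}*` with `(n, w) (m, x) = (n + m, σ^m(w) x)`.  This is a
countable left cancellative monoid which is right LCM and core factorable.  Its core is
`{(n, 1)}`, the elements `(0, s)` and `(0, t)` are core irreducible, and
`(0, s) S ∩ (0, t) S = (1, s) S`, while `(1, s) = (0, s) (1, 1)` is not core irreducible.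
-/

namespace Pool.Agent.Results.MP_4a71d8_al.NotInterClosed

section Defs

variable {S : Type*} [Monoid S]

/-- The principal right ideal `s S`. -/
def rightIdeal (s : S) : Set S := {x | ∃ y, x = s * y}

variable (S) in
/-- Right LCM condition: the intersection of two principal right ideals is empty or a principal
right ideal. -/
def IsRightLCM : Prop :=
  ∀ s t : S, rightIdeal s ∩ rightIdeal t = ∅ ∨
    ∃ r : S, rightIdeal s ∩ rightIdeal t = rightIdeal r

variable (S) in
/-- The core of `S`: all `a` with `a S ∩ s S ≠ ∅` for every `s ∈ S`. -/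
def core : Set S := {a | ∀ s : S, (rightIdeal a ∩ rightIdeal s).Nonempty}

variable (S) in
/-- The core irreducible elements: `s ∉ S_c`, and `s = t a` with `a ∈ S_c` forces `a` to be
invertible. -/
def coreIrreducible : Set S := {s | s ∉ core S ∧ ∀ t a : S, a ∈ core S → s = t * a → IsUnit a}

variable (S) in
/-- `S` is core factorable: every element is a product `c a` with `c` core irreducible or `1`,
and `a` in the core. -/
def IsCoreFactorable : Prop :=
  ∀ s : S, ∃ c a : S, (c ∈ coreIrreducible S ∨ c = 1) ∧ a ∈ core S ∧ s = c * a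

end Defs

/-- The letter map inducing `σ`: letters `0 = s`, `1 = t`, `2 = y`. -/
def f : Fin 3 → Fin 3 := ![0, 0, 2]

/-- The underlying set of the semidirect product. -/
@[ext] structure M where
  /-- the exponent -/
  n : ℕ
  /-- the word -/
  w : List (Fin 3)

namespace M

instance : Mul M := ⟨fun a b => ⟨a.n + b.n, a.w.map f^[b.n] ++ b.w⟩⟩

instance : One M := ⟨⟨0, []⟩⟩

@[simp] lemma mul_n (a b : M) : (a * b).n = a.n + b.n := rfl
@[simp] lemma mul_w (a b : M) : (a * b).w = a.w.map f^[b.n] ++ b.w := rfl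
@[simp] lemma one_n : (1 : M).n = 0 := rfl
@[simp] lemma one_w : (1 : M).w = [] := rfl

instance : Monoid M where
  mul_assoc a b c := by
    ext1
    · simp [add_assoc]
    · simp only [mul_w, mul_n, List.map_append, List.map_map, List.append_assoc]
      rw [← Function.iterate_add, add_comm c.n b.n]
  one_mul a := by ext1 <;> simp
  mul_one a := by ext1 <;> simp

instance : IsLeftCancelMul M where
  mul_left_cancel a b c h := by
    have h1 : a.n + b.n = a.n + c.n := congrArg M.n h
    have h2 : a.w.map f^[b.n] ++ b.w = a.w.map f^[c.n] ++ c.w := congrArg M.w h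
    have h3 : b.n = c.n := by omega
    rw [h3] at h2
    ext1
    · exact h3
    · exact List.append_cancel_left h2

lemma countable : Countable M := by
  have : Function.Injective (fun a : M => (a.n, a.w)) := by
    intro a b h
    simp only [Prod.mk.injEq] at h
    exact M.ext h.1 h.2
  exact this.countable

lemma mem_rightIdeal {a b : M} :
    b ∈ rightIdeal a ↔ a.n ≤ b.n ∧ a.w.map f^[b.n - a.n] <+: b.w := by
  constructor
  · rintro ⟨y, rfl⟩
    refine ⟨by simp, ?_⟩
    simp only [mul_n, add_tsub_cancel_left, mul_w]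
    exact List.prefix_append _ _
  · rintro ⟨h, z, hz⟩
    refine ⟨⟨b.n - a.n, z⟩, ?_⟩
    ext1
    · simp; omega
    · simp [hz]

lemma map_iter_prefix {u v : List (Fin 3)} (h : u <+: v) (k : ℕ) :
    u.map f^[k] <+: v.map f^[k] := by
  obtain ⟨z, rfl⟩ := h
  rw [List.map_append]
  exact List.prefix_append _ _

lemma map_iter_add (u : List (Fin 3)) (i j : ℕ) :
    (u.map f^[i]).map f^[j] = u.map f^[i + j] := by
  rw [List.map_map, ← Function.iterate_add, add_comm]

/-- Auxiliary computation of the intersection of two principal right ideals. -/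
lemma inter_eq {a b : M} {k : ℕ} (ha : a.n ≤ k) (hb : b.n ≤ k)
    (hmin : ∀ j, a.n ≤ j → b.n ≤ j →
      (a.w.map f^[j - a.n] <+: b.w.map f^[j - b.n] ∨
        b.w.map f^[j - b.n] <+: a.w.map f^[j - a.n]) → k ≤ j)
    (hpre : a.w.map f^[k - a.n] <+: b.w.map f^[k - b.n]) :
    rightIdeal a ∩ rightIdeal b = rightIdeal ⟨k, b.w.map f^[k - b.n]⟩ := by
  ext c
  simp only [Set.mem_inter_iff, mem_rightIdeal]
  constructor
  · rintro ⟨⟨h1, h2⟩, h3, h4⟩
    have hk : k ≤ c.n := hmin _ h1 h3 (List.prefix_or_prefix_of_prefix h2 h4)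
    refine ⟨hk, ?_⟩
    rw [map_iter_add]
    have : k - b.n + (c.n - k) = c.n - b.n := by omega
    rw [this]
    exact h4
  · rintro ⟨h1, h2⟩
    rw [map_iter_add] at h2
    have e : k - b.n + (c.n - k) = c.n - b.n := by omega
    rw [e] at h2
    refine ⟨⟨by omega, ?_⟩, by omega, h2⟩
    have h3 := map_iter_prefix hpre (c.n - k)
    rw [map_iter_add, map_iter_add, e] at h3
    have e' : k - a.n + (c.n - k) = c.n - a.n := by omega
    rw [e'] at h3
    exact h3.trans h2

lemma isRightLCM : IsRightLCM M := by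
  intro a b
  classical
  by_cases h : ∃ j, a.n ≤ j ∧ b.n ≤ j ∧
      (a.w.map f^[j - a.n] <+: b.w.map f^[j - b.n] ∨
        b.w.map f^[j - b.n] <+: a.w.map f^[j - a.n])
  · right
    obtain ⟨h1, h2, h3⟩ := Nat.find_spec h
    have hmin : ∀ j, a.n ≤ j → b.n ≤ j →
      (a.w.map f^[j - a.n] <+: b.w.map f^[j - b.n] ∨
        b.w.map f^[j - b.n] <+: a.w.map f^[j - a.n]) → Nat.find h ≤ j :=
      fun j h4 h5 h6 => Nat.find_min' h ⟨h4, h5, h6⟩
    rcases h3 with h3 | h3
    · exact ⟨_, inter_eq h1 h2 hmin h3⟩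
    · refine ⟨⟨Nat.find h, a.w.map f^[Nat.find h - a.n]⟩, ?_⟩
      rw [Set.inter_comm]
      exact inter_eq h2 h1 (fun j h4 h5 h6 => hmin j h5 h4 h6.symm) h3
  · left
    rw [Set.eq_empty_iff_forall_notMem]
    rintro c ⟨h1, h2⟩
    rw [mem_rightIdeal] at h1 h2
    exact h ⟨c.n, h1.1, h2.1, List.prefix_or_prefix_of_prefix h1.2 h2.2⟩

lemma f_iter_two (k : ℕ) : f^[k] 2 = 2 := by
  induction k with
  | zero => rfl
  | succ k ih => rw [Function.iterate_succ_apply, show f 2 = 2 from rfl, ih]

lemma f_iter_zero (k : ℕ) : f^[k] 0 = 0 := by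
  induction k with
  | zero => rfl
  | succ k ih => rw [Function.iterate_succ_apply, show f 0 = 0 from rfl, ih]

lemma f_iter_ne_two {i : Fin 3} (hi : i ≠ 2) (k : ℕ) : f^[k] i ≠ 2 := by
  induction k generalizing i with
  | zero => exact hi
  | succ k ih =>
    rw [Function.iterate_succ_apply]
    apply ih
    revert hi
    revert i
    decide

lemma mem_core {a : M} : a ∈ core M ↔ a.w = [] := by
  constructor
  · intro h
    by_contra hne
    obtain ⟨i, l, hl⟩ := List.exists_cons_of_ne_nil hne
    by_cases hi : i = 2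
    · obtain ⟨c, h1, h2⟩ := h ⟨0, [0]⟩
      rw [mem_rightIdeal] at h1 h2
      obtain ⟨z1, h1⟩ := h1.2
      obtain ⟨z2, h2⟩ := h2.2
      rw [hl, hi] at h1
      rw [← h1] at h2
      simp [f_iter_two, f_iter_zero] at h2
    · obtain ⟨c, h1, h2⟩ := h ⟨0, [2]⟩
      rw [mem_rightIdeal] at h1 h2
      obtain ⟨z1, h1⟩ := h1.2
      obtain ⟨z2, h2⟩ := h2.2
      rw [hl] at h1
      rw [← h1] at h2
      simp only [List.map_cons, List.map_nil, List.cons_append, List.nil_append,
        List.cons.injEq, f_iter_two] at h2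
      exact f_iter_ne_two hi _ h2.1.symm
  · intro h s
    refine ⟨s * ⟨a.n, []⟩, ?_, ⟨_, rfl⟩⟩
    rw [mem_rightIdeal, h]
    simp

lemma isUnit_of {a : M} (h1 : a.n = 0) (h2 : a.w = []) : IsUnit a := by
  have : a = 1 := by ext1 <;> simp [h1, h2]
  rw [this]
  exact isUnit_one

lemma eq_one_of_isUnit {a : M} (h : IsUnit a) : a.n = 0 := by
  obtain ⟨b, hb⟩ := h.exists_right_inv
  have := congrArg M.n hb
  simp at this
  omega

/-- Criterion for core irreducibility. -/
lemma mem_coreIrreducible {a : M} (h1 : a.w ≠ []) (h2 : a.n = 0 ∨ 1 ∈ a.w) :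
    a ∈ coreIrreducible M := by
  refine ⟨fun h => h1 (mem_core.1 h), ?_⟩
  intro t b hb hab
  rw [mem_core] at hb
  have hn : a.n = t.n + b.n := congrArg M.n hab
  have hw : a.w = t.w.map f^[b.n] := by
    have := congrArg M.w hab
    rwa [mul_w, hb, List.append_nil] at this
  refine isUnit_of ?_ hb
  by_contra hbn
  rcases h2 with h2 | h2
  · omega
  · rw [hw, List.mem_map] at h2
    obtain ⟨i, _, hi⟩ := h2
    obtain ⟨k, hk⟩ := Nat.exists_eq_succ_of_ne_zero hbn
    rw [hk, Function.iterate_succ_apply'] at hi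
    revert hi
    generalize f^[k] i = j
    revert j
    decide

lemma isCoreFactorable : IsCoreFactorable M := by
  intro a
  by_cases h1 : a.w = []
  · exact ⟨1, a, Or.inr rfl, mem_core.2 h1, (one_mul a).symm⟩
  · by_cases h2 : 1 ∈ a.w
    · exact ⟨a, 1, Or.inl (mem_coreIrreducible h1 (Or.inr h2)), mem_core.2 rfl, (mul_one a).symm⟩
    · refine ⟨⟨0, a.w⟩, ⟨a.n, []⟩, Or.inl (mem_coreIrreducible h1 (Or.inl rfl)),
        mem_core.2 rfl, ?_⟩
      ext1
      · simp
      · simp only [mul_w, List.append_nil]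
        symm
        conv_rhs => rw [← List.map_id a.w]
        apply List.map_congr_left
        intro i hi
        have hi1 : i ≠ 1 := fun h => h2 (h ▸ hi)
        have aux : ∀ i : Fin 3, i ≠ 1 → i = 0 ∨ i = 2 := by decide
        rcases aux i hi1 with rfl | rfl
        · exact f_iter_zero _
        · exact f_iter_two _

end M

open M in
/-- There is a countable left cancellative monoid which is right LCM (and core factorable) in
which some right LCM of two core irreducible elements is not core irreducible. -/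
theorem result :
    ∃ (S : Type) (_ : Monoid S), Countable S ∧ IsLeftCancelMul S ∧ IsRightLCM S ∧
      IsCoreFactorable S ∧
      ∃ s t r : S, s ∈ coreIrreducible S ∧ t ∈ coreIrreducible S ∧
        rightIdeal s ∩ rightIdeal t = rightIdeal r ∧ r ∉ coreIrreducible S := by
  refine ⟨M, inferInstance, M.countable, inferInstance, isRightLCM, isCoreFactorable,
    ⟨0, [0]⟩, ⟨0, [1]⟩, ⟨1, [0]⟩, mem_coreIrreducible (by simp) (Or.inl rfl),
    mem_coreIrreducible (by simp) (Or.inl rfl), ?_, ?_⟩
  · rw [Set.inter_comm]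
    have := inter_eq (a := ⟨0, [1]⟩) (b := ⟨0, [0]⟩) (k := 1) (by simp) (by simp) ?_ ?_
    · exact this
    · intro j _ _ h
      by_contra hj
      have : j = 0 := by omega
      subst this
      simp at h
    · simp [f]
  · rintro ⟨-, h⟩
    have := h ⟨0, [0]⟩ ⟨1, []⟩ (mem_core.2 rfl) rfl
    have := eq_one_of_isUnit this
    simp at this

end Pool.Agent.Results.MP_4a71d8_al.NotInterClosed
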